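import Mathlib
import Pool.Agent.MP_2237f3_co.Final

set_option autoImplicit false

namespace Pool.Agent.Results.MP_2237f3_co.AllMultigraphs

open Finset

/-- For every `ε > 0` there is `b₀` such that every finite bipartite multigraph (parallel edges
allowed without restriction) with edge weights in `[0, 1]` whose edges at every vertex can be
packed into `b ≥ b₀` unit bins has a proper weighted edge colouring with at most `(17/10 + ε) b`
colours.  With `ε = 1/10` this is at most `2 b - 1` colours for all large `b`. -/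
theorem result (ε : ℝ) (hε : 0 < ε) :
    ∃ b₀ : ℕ, ∀ (S T E : Type) [Fintype S] [Fintype T] [Fintype E]
      [DecidableEq S] [DecidableEq T] (s : E → S) (t : E → T) (w : E → ℝ) (b : ℕ),
      b₀ ≤ b → (∀ e, 0 ≤ w e ∧ w e ≤ 1) →
      (∀ u, ∃ f : E → Fin b, ∀ j, ∑ e ∈ univ.filter (fun e => s e = u ∧ f e = j), w e ≤ 1) →
      (∀ v, ∃ f : E → Fin b, ∀ j, ∑ e ∈ univ.filter (fun e => t e = v ∧ f e = j), w e ≤ 1) →
      ∃ (K : ℕ) (c : E → Fin K), (K : ℝ) ≤ (17 / 10 + ε) * b ∧
        (∀ u j, ∑ e ∈ univ.filter (fun e => s e = u ∧ c e = j), w e ≤ 1) ∧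
        (∀ v j, ∑ e ∈ univ.filter (fun e => t e = v ∧ c e = j), w e ≤ 1) := by
  classical
  obtain ⟨b₀, h⟩ := Pool.Agent.MP2237.main_multi ε hε
  exact ⟨b₀, fun S T E _ _ _ _ _ s t w b hb hw hS hT => h S T E s t w b hb hw hS hT⟩

end Pool.Agent.Results.MP_2237f3_co.AllMultigraphs
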