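import Mathlib

set_option autoImplicit false

namespace Pool.Agent.Results.MP_2237f3_co.BinsChoose

open Finset

/-- Every finite loopless multigraph (in particular every finite bipartite multigraph) whose edge
weights at each vertex can be packed into `b` unit bins can be coloured with `b (b + 1) / 2`
colours so that every colour has total weight at most one at every vertex.  For `b = 2` this is
`2 b - 1 = 3` colours. -/
theorem result {V E : Type*} [Fintype V] [DecidableEq V] [Fintype E]
    (s t : E → V) (hne : ∀ e, s e ≠ t e) (w : E → ℝ) (hw : ∀ e, 0 ≤ w e) (b : ℕ)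
    (hb : ∀ v : V, ∃ f : E → Fin b, ∀ j : Fin b,
      ∑ e ∈ univ.filter (fun e => (s e = v ∨ t e = v) ∧ f e = j), w e ≤ 1) :
    ∃ c : E → Fin (b * (b + 1) / 2), ∀ v : V, ∀ j : Fin (b * (b + 1) / 2),
      ∑ e ∈ univ.filter (fun e => (s e = v ∨ t e = v) ∧ c e = j), w e ≤ 1 := by
  classical
  choose f hf using hb
  -- own label and other label of an edge at a vertex
  let lab : (V → Equiv.Perm (Fin b)) → V → E → Fin b := fun σ v e => σ v (f v e)
  let agr : (V → Equiv.Perm (Fin b)) → E → Prop := fun σ e => lab σ (s e) e = lab σ (t e) e
  let D : (V → Equiv.Perm (Fin b)) → ℝ := fun σ => ∑ e : E, if agr σ e then w e else 0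
  obtain ⟨σ, -, hσ⟩ := exists_max_image (univ : Finset (V → Equiv.Perm (Fin b))) D
    ⟨fun _ => 1, mem_univ _⟩
  let oth : V → E → V := fun v e => if s e = v then t e else s e
  let W : V → Fin b → Fin b → ℝ := fun v i j =>
    ∑ e ∈ univ.filter (fun e => (s e = v ∨ t e = v) ∧ lab σ v e = i ∧ lab σ (oth v e) e = j), w e
  have hWnn : ∀ v i j, 0 ≤ W v i j := fun v i j => sum_nonneg fun e _ => hw e
  have hrow : ∀ v i j k, j ≠ k → W v i j + W v i k ≤ 1 := by
    intro v i j k hjk
    have hdisj : Disjoint
        (univ.filter (fun e => (s e = v ∨ t e = v) ∧ lab σ v e = i ∧ lab σ (oth v e) e = j))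
        (univ.filter (fun e => (s e = v ∨ t e = v) ∧ lab σ v e = i ∧ lab σ (oth v e) e = k)) := by
      rw [disjoint_filter]
      rintro e - ⟨-, -, h1⟩ ⟨-, -, h2⟩
      exact hjk (h1.symm.trans h2)
    simp only [W]
    rw [← sum_union hdisj]
    refine le_trans (sum_le_sum_of_subset_of_nonneg ?_ fun e _ _ => hw e) (hf v ((σ v).symm i))
    intro e he
    simp only [mem_union, mem_filter, mem_univ, true_and] at he ⊢
    have : (s e = v ∨ t e = v) ∧ lab σ v e = i := by tauto
    exact ⟨this.1, by rw [← this.2]; simp [lab]⟩
  have hswap : ∀ v i j, i ≠ j → W v i j + W v j i ≤ W v i i + W v j j := by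
    intro v i j hij
    let τ : V → Equiv.Perm (Fin b) := Function.update σ v (Equiv.swap i j * σ v)
    have h1 := hσ τ (mem_univ _)
    have h2 : D τ - D σ = W v i j + W v j i - W v i i - W v j j := by
      simp only [D, W, sum_filter]
      rw [← sum_sub_distrib, ← sum_add_distrib, ← sum_sub_distrib, ← sum_sub_distrib]
      refine sum_congr rfl fun e _ => ?_
      have hst := hne e
      -- a purely combinatorial statement about the labels at `v` and at the other endpoint
      have key : ∀ x y : Fin b, ((if Equiv.swap i j x = y then w e else 0) -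
          (if x = y then w e else 0) : ℝ) =
          (if x = i ∧ y = j then w e else 0) + (if x = j ∧ y = i then w e else 0) -
          (if x = i ∧ y = i then w e else 0) - (if x = j ∧ y = j then w e else 0) := by
        intro x y
        by_cases hxi : x = i
        · subst hxi
          rw [Equiv.swap_apply_left]
          by_cases hyj : y = j
          · subst hyj
            simp [hij, hij.symm]
          · by_cases hyx : y = x
            · subst hyx
              simp [hij, hij.symm]
            · simp [hij, hyj, hyx, Ne.symm hyj, Ne.symm hyx]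
        · by_cases hxj : x = j
          · subst hxj
            rw [Equiv.swap_apply_right]
            by_cases hyi : y = i
            · subst hyi
              simp [hij, hij.symm]
            · by_cases hyx : y = x
              · subst hyx
                simp [hij, hij.symm]
              · simp [hxi, hyi, hyx, Ne.symm hyi, Ne.symm hyx]
          · rw [Equiv.swap_apply_of_ne_of_ne hxi hxj]
            simp [hxi, hxj]
      by_cases h1 : s e = v
      · have h2 : t e ≠ v := fun h => hst (h1.trans h.symm)
        simp only [agr, lab, oth, τ, h1, Function.update_self, Function.update_of_ne h2, true_or,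
          true_and, if_true, Equiv.Perm.coe_mul, Function.comp_apply]
        exact key _ _
      · by_cases h2 : t e = v
        · simp only [agr, lab, oth, τ, h1, h2, Function.update_self, Function.update_of_ne h1,
            or_true, true_and, if_false, Equiv.Perm.coe_mul, Function.comp_apply]
          have := key ((σ v) (f v e)) ((σ (s e)) (f (s e) e))
          rw [← this]
          simp only [eq_comm]
        · simp only [agr, lab, τ, Function.update_of_ne h1, Function.update_of_ne h2, h1, h2,
            or_self, false_and, if_false]
          simp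
    linarith
  have hcard : Fintype.card (Sym2 (Fin b)) = b * (b + 1) / 2 := by
    rw [Sym2.card, Fintype.card_fin, Nat.choose_two_right]
    simp [mul_comm]
  let ε : Sym2 (Fin b) ≃ Fin (b * (b + 1) / 2) := Fintype.equivFinOfCardEq hcard
  refine ⟨fun e => ε s(lab σ (s e) e, lab σ (t e) e), fun v j => ?_⟩
  obtain ⟨p, rfl⟩ := ε.surjective j
  simp only [EmbeddingLike.apply_eq_iff_eq]
  have hpair : ∀ e, (s e = v ∨ t e = v) →
      s(lab σ (s e) e, lab σ (t e) e) = s(lab σ v e, lab σ (oth v e) e) := by
    intro e he
    by_cases h1 : s e = v
    · simp [oth, h1]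
    · have h2 : t e = v := by tauto
      simp only [oth, h1, if_false, h2]
      exact Sym2.eq_swap
  induction p with
  | h i j =>
    by_cases hij : i = j
    · subst hij
      refine le_trans (sum_le_sum_of_subset_of_nonneg ?_ fun e _ _ => hw e) (hf v ((σ v).symm i))
      intro e he
      simp only [mem_filter, mem_univ, true_and] at he ⊢
      obtain ⟨h1, h2⟩ := he
      rw [hpair e h1, Sym2.eq_iff] at h2
      have : lab σ v e = i := by tauto
      exact ⟨h1, by rw [← this]; simp [lab]⟩
    · have hsum : ∑ e ∈ univ.filter (fun e => (s e = v ∨ t e = v) ∧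
          s(lab σ (s e) e, lab σ (t e) e) = s(i, j)), w e = W v i j + W v j i := by
        have hdisj : Disjoint
            (univ.filter (fun e => (s e = v ∨ t e = v) ∧ lab σ v e = i ∧ lab σ (oth v e) e = j))
            (univ.filter (fun e => (s e = v ∨ t e = v) ∧ lab σ v e = j ∧
              lab σ (oth v e) e = i)) := by
          rw [disjoint_filter]
          rintro e - ⟨-, h1, -⟩ ⟨-, h2, -⟩
          exact hij (h1.symm.trans h2)
        simp only [W]
        rw [← sum_union hdisj]
        refine sum_congr ?_ fun _ _ => rfl
        ext e
        simp only [mem_filter, mem_univ, true_and, mem_union]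
        constructor
        · rintro ⟨h1, h2⟩
          rw [hpair e h1, Sym2.eq_iff] at h2
          tauto
        · rintro (⟨h1, h2, h3⟩ | ⟨h1, h2, h3⟩)
          · exact ⟨h1, by rw [hpair e h1, h2, h3]⟩
          · exact ⟨h1, by rw [hpair e h1, h2, h3]; exact Sym2.eq_swap⟩
      rw [hsum]
      have h1 := hswap v i j hij
      have h2 := hrow v i j i (Ne.symm hij)
      have h3 := hrow v j i j hij
      linarith

end Pool.Agent.Results.MP_2237f3_co.BinsChoose
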