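import Mathlib
import Pool.Agent.MP_2237f3_co.Few

set_option autoImplicit false

namespace Pool.Agent.Results.MP_2237f3_co.FewNeighbours

open Finset

/-- If the weights at every vertex of a bipartite multigraph can be packed into `b` unit bins and
every vertex has at most `r` distinct neighbours, then `K` colours suffice as soon as
`17 b + 10 r ≤ 10 (K + 1)`, that is `K = ⌈17 b / 10⌉ + r - 1` colours.  For `r ≤ 3 b / 10` this
gives `2 b - 1` colours. -/
theorem result {S T E : Type} [Fintype S] [Fintype T] [Fintype E] [DecidableEq S] [DecidableEq T]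
    (s : E → S) (t : E → T) (w : E → ℝ) (b r K : ℕ) (hw : ∀ e, 0 ≤ w e ∧ w e ≤ 1)
    (hS : ∀ u, ∃ f : E → Fin b, ∀ j, ∑ e ∈ univ.filter (fun e => s e = u ∧ f e = j), w e ≤ 1)
    (hT : ∀ v, ∃ f : E → Fin b, ∀ j, ∑ e ∈ univ.filter (fun e => t e = v ∧ f e = j), w e ≤ 1)
    (hrS : ∀ u, (univ.filter (fun v => ∃ e, s e = u ∧ t e = v)).card ≤ r)
    (hrT : ∀ v, (univ.filter (fun u => ∃ e, s e = u ∧ t e = v)).card ≤ r)
    (hK : 17 * b + 10 * r ≤ 10 * (K + 1)) :
    ∃ c : E → Fin K,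
      (∀ u j, ∑ e ∈ univ.filter (fun e => s e = u ∧ c e = j), w e ≤ 1) ∧
      (∀ v j, ∑ e ∈ univ.filter (fun e => t e = v ∧ c e = j), w e ≤ 1) :=
  Pool.Agent.MP2237few.main s t w b r K hw hS hT hrS hrT hK

end Pool.Agent.Results.MP_2237f3_co.FewNeighbours
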