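import Mathlib
import Pool.Agent.MP_2237f3_co.Main

set_option autoImplicit false

namespace Pool.Agent.Results.MP_2237f3_co.LowMultiplicity

open Finset

/-- For every `ε > 0` there are `η > 0` and `b₀` such that every finite bipartite multigraph with
edge weights in `[0, 1]` whose edges at every vertex can be packed into `b ≥ b₀` unit bins, and
which has at most `η b` parallel edges between any two vertices, has a proper weighted edge
colouring with at most `(1 + ε) b` colours.  For simple bipartite graphs the multiplicity condition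
is void once `b ≥ 1 / η`, so with `ε = 1 / 2` one gets at most `2 b - 1` colours for all simple
bipartite graphs with `b` large. -/
theorem result (ε : ℝ) (hε : 0 < ε) :
    ∃ η : ℝ, 0 < η ∧ ∃ b₀ : ℕ, ∀ (S T E : Type) [Fintype S] [Fintype T] [Fintype E]
      [DecidableEq S] [DecidableEq T] (s : E → S) (t : E → T) (w : E → ℝ) (b : ℕ),
      b₀ ≤ b → (∀ e, 0 ≤ w e ∧ w e ≤ 1) →
      (∀ u v, ((univ.filter fun e => s e = u ∧ t e = v).card : ℝ) ≤ η * b) →
      (∀ u, ∃ f : E → Fin b, ∀ j, ∑ e ∈ univ.filter (fun e => s e = u ∧ f e = j), w e ≤ 1) →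
      (∀ v, ∃ f : E → Fin b, ∀ j, ∑ e ∈ univ.filter (fun e => t e = v ∧ f e = j), w e ≤ 1) →
      ∃ (K : ℕ) (c : E → Fin K), (K : ℝ) ≤ (1 + ε) * b ∧
        (∀ u j, ∑ e ∈ univ.filter (fun e => s e = u ∧ c e = j), w e ≤ 1) ∧
        (∀ v j, ∑ e ∈ univ.filter (fun e => t e = v ∧ c e = j), w e ≤ 1) := by
  classical
  obtain ⟨η, hη, b₀, h⟩ := Pool.Agent.MP2237.main ε hε
  exact ⟨η, hη, b₀, fun S T E _ _ _ _ _ s t w b hb hw hm hS hT =>
    h S T E s t w b hb hw hm hS hT⟩

end Pool.Agent.Results.MP_2237f3_co.LowMultiplicity
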